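import Mathlib
set_option autoImplicit false

/-! Minimum leaf subgraphs, transition costs and the fault cost of a graph. -/

namespace Pool.Agent.V11181.FC

variable {V : Type*}

/-- the degree of a vertex in a (spanning) subgraph -/
noncomputable def dg (S : SimpleGraph V) (w : V) : ℕ := (S.neighborSet w).ncard

/-- `S` is (the edge set of) a hamiltonian cycle of `G`. -/
def IsHamCycle (G S : SimpleGraph V) : Prop :=
  S ≤ G ∧ 3 ≤ Nat.card V ∧ ∃ f : ZMod (Nat.card V) → V, Function.Bijective f ∧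
    ∀ x y, S.Adj x y ↔ ∃ i, (x = f i ∧ y = f (i + 1)) ∨ (y = f i ∧ x = f (i + 1))

/-- `G` is hamiltonian. -/
def Hamiltonian (G : SimpleGraph V) : Prop := ∃ S, IsHamCycle G S

/-- `S` is a spanning tree of `G`. -/
def IsSpanningTree (G S : SimpleGraph V) : Prop := S ≤ G ∧ S.IsTree

/-- number of leaves -/
noncomputable def leaves (S : SimpleGraph V) : ℕ := {w | dg S w = 1}.ncard

open Classical in
/-- The minimum leaf number. -/
noncomputable def ml (G : SimpleGraph V) : ℕ :=
  if Hamiltonian G then 1 else sInf {k | ∃ S, IsSpanningTree G S ∧ leaves S = k}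

/-- `S` is an ml-subgraph of `G`. -/
def IsMl (G S : SimpleGraph V) : Prop :=
  IsHamCycle G S ∨ (¬ Hamiltonian G ∧ IsSpanningTree G S ∧ leaves S = ml G)

/-- The vertex-deleted graph `G - v`. -/
abbrev del (G : SimpleGraph V) (v : V) : SimpleGraph ↥({v}ᶜ : Set V) := G.induce {v}ᶜ

/-- The transition cost between `S` and a subgraph `S'` of `G - v`. -/
noncomputable def cost (S : SimpleGraph V) (v : V) (S' : SimpleGraph ↥({v}ᶜ : Set V)) : ℕ :=
  {w : ↥({v}ᶜ : Set V) | dg S w.1 ≠ dg S' w}.ncard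

/-- `φ_S(G)` -/
noncomputable def faultCostAt (G S : SimpleGraph V) : ℕ :=
  ⨆ v : V, sInf {c | ∃ S', IsMl (del G v) S' ∧ cost S v S' = c}

/-- `φ(G)` -/
noncomputable def faultCost (G : SimpleGraph V) : ℕ :=
  sInf {c | ∃ S, IsMl G S ∧ faultCostAt G S = c}

/-- `G` is 2-connected. -/
def TwoConnected (G : SimpleGraph V) : Prop :=
  3 ≤ Nat.card V ∧ G.Connected ∧ ∀ v, (del G v).Connected

end Pool.Agent.V11181.FC
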