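import Pool.Agent.V11181.FC.Data
import Pool.Agent.V11181.FC.Defs
set_option autoImplicit false

/-! A graph with a 2-edge-cut one side of which has no hamiltonian path between the ends of the
cut is not hamiltonian. -/

namespace Pool.Agent.V11181.FC
open Finset

/-- adjacency test -/
def bit (a b : ℕ) : Bool := Nat.testBit adjM (32 * a + b)

/-- no path with `k` further vertices from `cur` to `e` avoiding `vis` -/
def dead (e : ℕ) : ℕ → ℕ → ℕ → Bool
  | 0, cur, _ => !(cur == e)
  | k + 1, cur, vis => (List.range 16).all (fun y =>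
      !(bit cur y) || (vis.testBit y || dead e k y (vis ||| (1 <<< y))))

theorem dead01 : dead 1 15 0 1 = true := by decide +kernel
theorem dead10 : dead 0 15 1 2 = true := by decide +kernel

theorem dead_sound (e : ℕ) (p : ℕ → Fin 16) (hend : (p 15).val = e)
    (hadj : ∀ j, j < 15 → bit (p j).val (p (j + 1)).val = true)
    (hinj : ∀ i j, i ≤ 15 → j ≤ 15 → p i = p j → i = j) :
    ∀ k j vis, j + k = 15 → (∀ y : ℕ, vis.testBit y = true → ∃ i, i ≤ j ∧ (p i).val = y) →
      dead e k (p j).val vis = true → False := by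
  intro k
  induction k with
  | zero =>
    intro j vis hj _ hd
    have : j = 15 := by omega
    subst this
    simp [dead, hend] at hd
  | succ k ih =>
    intro j vis hj hvis hd
    simp only [dead, List.all_eq_true, List.mem_range] at hd
    have h := hd (p (j + 1)).val (p (j + 1)).isLt
    rw [hadj j (by omega)] at h
    have hnv : vis.testBit (p (j + 1)).val = false := by
      by_contra hc
      obtain ⟨i, hi, hpi⟩ := hvis _ (by simpa using hc)
      have := hinj i (j + 1) (by omega) (by omega) (Fin.ext hpi)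
      omega
    rw [hnv] at h
    simp only [Bool.not_true, Bool.false_or] at h
    refine ih (j + 1) _ (by omega) ?_ h
    intro y hy
    rw [Nat.testBit_or, Nat.one_shiftLeft, Nat.testBit_two_pow] at hy
    simp only [Bool.or_eq_true, decide_eq_true_eq] at hy
    rcases hy with hy | hy
    · obtain ⟨i, hi, hpi⟩ := hvis y hy
      exact ⟨i, by omega, hpi⟩
    · exact ⟨j + 1, le_refl _, hy⟩

variable {V : Type*}

theorem no_ham_cycle [Finite V] {G : SimpleGraph V} (φ : Fin 16 → V)
    (hφ : Function.Injective φ)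
    (h1 : ∀ x y, G.Adj (φ x) (φ y) → bit x.val y.val = true)
    (h2 : ∀ x w, (∀ y, φ y ≠ w) → G.Adj (φ x) w → x.val = 0 ∨ x.val = 1)
    (h2' : ∀ x w w', (∀ y, φ y ≠ w) → (∀ y, φ y ≠ w') → G.Adj (φ x) w → G.Adj (φ x) w' → w = w')
    (h3 : ∃ w, ∀ y, φ y ≠ w) : ¬ Hamiltonian G := by
  rintro ⟨S, hle, hn, f, hf, hS⟩
  generalize hN : Nat.card V = n at *
  have hadj0 : ∀ i, G.Adj (f i) (f (i + 1)) := by
    intro i
    apply hle
    rw [hS]
    exact ⟨i, Or.inl ⟨rfl, rfl⟩⟩
  clear hS hle S
  have : NeZero n := ⟨by omega⟩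
  -- a place where the cycle enters the side
  obtain ⟨i0, hout, hin⟩ : ∃ i, (∀ y, φ y ≠ f i) ∧ ∃ y, φ y = f (i + 1) := by
    by_contra hcon
    push Not at hcon
    obtain ⟨w, hw⟩ := h3
    obtain ⟨i1, rfl⟩ := hf.surjective w
    have key : ∀ k : ℕ, ∀ y, φ y ≠ f (i1 + (k : ZMod n)) := by
      intro k
      induction k with
      | zero => simpa using hw
      | succ k ih =>
        have := hcon _ ih
        rw [Nat.cast_succ, ← add_assoc]
        exact this
    obtain ⟨j, hj⟩ := hf.surjective (φ 0)
    have := key (j - i1).val 0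
    rw [ZMod.natCast_zmod_val, add_sub_cancel] at this
    exact this hj.symm
  set g : ℕ → V := fun k => f (i0 + (k : ZMod n)) with hg
  have g0 : g 0 = f i0 := by simp [hg]
  have g1 : g 1 = f (i0 + 1) := by simp [hg]
  have gn : g n = g 0 := by simp [hg]
  have gadj : ∀ k, G.Adj (g k) (g (k + 1)) := by
    intro k
    have := hadj0 (i0 + (k : ZMod n))
    simp only [hg]
    rw [Nat.cast_succ, ← add_assoc]
    exact this
  have ginj : ∀ i j, i < n → j < n → g i = g j → i = j := by
    intro i j hi hj h
    have h' := hf.injective h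
    have h'' : ((i : ℕ) : ZMod n) = ((j : ℕ) : ZMod n) := add_left_cancel h'
    rw [ZMod.natCast_eq_natCast_iff'] at h''
    rwa [Nat.mod_eq_of_lt hi, Nat.mod_eq_of_lt hj] at h''
  have gsurj : ∀ w, ∃ i, i < n ∧ g i = w := by
    intro w
    obtain ⟨j, rfl⟩ := hf.surjective w
    refine ⟨(j - i0).val, ZMod.val_lt _, ?_⟩
    simp only [hg]
    rw [ZMod.natCast_zmod_val, add_sub_cancel]
  rw [← g0] at hout
  rw [← g1] at hin
  -- the exit
  have hex : ∃ k, 1 ≤ k ∧ ∀ y, φ y ≠ g (k + 1) := by
    refine ⟨n - 1, by omega, ?_⟩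
    rw [show n - 1 + 1 = n by omega, gn]
    exact hout
  classical
  obtain ⟨k, ⟨hk1, hk2⟩, hkmin⟩ : ∃ k, (1 ≤ k ∧ ∀ y, φ y ≠ g (k + 1)) ∧
      ∀ j, j < k → ¬ (1 ≤ j ∧ ∀ y, φ y ≠ g (j + 1)) :=
    ⟨Nat.find hex, Nat.find_spec hex, fun j hj => Nat.find_min hex hj⟩
  have hkn : k ≤ n - 1 := by
    by_contra hc
    push Not at hc
    apply hkmin (n - 1) hc
    refine ⟨by omega, ?_⟩
    rw [show n - 1 + 1 = n by omega, gn]
    exact hout
  have hrun : ∀ j, 1 ≤ j → j ≤ k → ∃ y, φ y = g j := by
    intro j hj1 hjk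
    rcases Nat.eq_or_lt_of_le hj1 with h | h
    · rw [← h]; exact hin
    · have := hkmin (j - 1) (by omega)
      rw [show j - 1 + 1 = j by omega] at this
      push Not at this
      exact this (by omega)
  obtain ⟨x1, hx1⟩ := hin
  obtain ⟨xk, hxk⟩ := hrun k hk1 le_rfl
  have c1 : x1.val = 0 ∨ x1.val = 1 :=
    h2 x1 (g 0) hout (by rw [hx1]; exact (gadj 0).symm)
  have ck : xk.val = 0 ∨ xk.val = 1 :=
    h2 xk (g (k + 1)) hk2 (by rw [hxk]; exact gadj k)
  have hne : x1 ≠ xk := by
    intro h
    have hk : 1 = k := ginj 1 k (by omega) (by omega) (by rw [← hx1, ← hxk, h])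
    have h02 : g 0 = g (k + 1) := h2' x1 _ _ hout hk2
      (by rw [hx1]; exact (gadj 0).symm) (by rw [h, hxk]; exact gadj k)
    have := ginj 0 (k + 1) (by omega) (by omega) h02
    omega
  -- no further visit
  have hafter : ∀ m, k < m → m < n → ∀ y, φ y ≠ g m := by
    intro m hkm hmn
    by_contra hc
    push Not at hc
    have hex2 : ∃ m, (k < m ∧ m < n) ∧ ∃ y, φ y = g m := ⟨m, ⟨hkm, hmn⟩, hc⟩
    obtain ⟨m', ⟨⟨hm1, hm2⟩, hm3⟩, hmin⟩ : ∃ m', ((k < m' ∧ m' < n) ∧ ∃ y, φ y = g m') ∧
        ∀ j, j < m' → ¬ ((k < j ∧ j < n) ∧ ∃ y, φ y = g j) :=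
      ⟨Nat.find hex2, Nat.find_spec hex2, fun j hj => Nat.find_min hex2 hj⟩
    obtain ⟨xm, hxm⟩ := hm3
    have hne1 : m' ≠ k + 1 := by
      intro h
      rw [h] at hxm
      exact hk2 xm hxm
    have hprev : ∀ y, φ y ≠ g (m' - 1) := by
      intro y hy
      exact hmin (m' - 1) (by omega) ⟨⟨by omega, by omega⟩, y, hy⟩
    have cm : xm.val = 0 ∨ xm.val = 1 := by
      refine h2 xm (g (m' - 1)) hprev ?_
      have := (gadj (m' - 1)).symm
      rw [show m' - 1 + 1 = m' by omega] at this
      rw [hxm]; exact this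
    have d1 : x1 ≠ xm := by
      intro h
      have := ginj 1 m' (by omega) (by omega) (by rw [← hx1, ← hxm, h])
      omega
    have d2 : xk ≠ xm := by
      intro h
      have := ginj k m' (by omega) (by omega) (by rw [← hxk, ← hxm, h])
      omega
    have e1 : x1.val ≠ xk.val := fun h => hne (Fin.ext h)
    have e2 : x1.val ≠ xm.val := fun h => d1 (Fin.ext h)
    have e3 : xk.val ≠ xm.val := fun h => d2 (Fin.ext h)
    omega
  -- the run has length sixteen
  choose! q hq using hrun
  have hqinj : ∀ i j, 1 ≤ i → i ≤ k → 1 ≤ j → j ≤ k → q i = q j → i = j := by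
    intro i j hi hik hj hjk h
    apply ginj i j (by omega) (by omega)
    rw [← hq i hi hik, ← hq j hj hjk, h]
  have hk16 : k = 16 := by
    apply le_antisymm
    · have : Function.Injective (fun i : Fin k => q (i.val + 1)) := by
        intro i j h
        have := hqinj (i.val + 1) (j.val + 1) (by omega) (by have := i.isLt; omega) (by omega)
          (by have := j.isLt; omega) h
        exact Fin.ext (by omega)
      simpa using Fintype.card_le_of_injective _ this
    · have : Function.Surjective (fun i : Fin k => q (i.val + 1)) := by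
        intro x
        obtain ⟨m, hm, hgm⟩ := gsurj (φ x)
        have hm0 : m ≠ 0 := by
          intro h
          rw [h] at hgm
          exact hout x hgm.symm
        have hmk : m ≤ k := by
          by_contra hc
          exact hafter m (by omega) hm x hgm.symm
        refine ⟨⟨m - 1, by omega⟩, ?_⟩
        simp only
        rw [show m - 1 + 1 = m by omega]
        apply hφ
        rw [hq m (by omega) hmk, hgm]
      simpa using Fintype.card_le_of_surjective _ this
  subst hk16
  have hq1 : q 1 = x1 := hφ (by rw [hq 1 (by omega) (by omega), hx1])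
  have hq16 : q 16 = xk := hφ (by rw [hq 16 (by omega) (by omega), hxk])
  have hpadj : ∀ j, j < 15 → bit (q (j + 1)).val (q (j + 1 + 1)).val = true := by
    intro j hj
    apply h1
    rw [hq (j + 1) (by omega) (by omega), hq (j + 1 + 1) (by omega) (by omega)]
    exact gadj (j + 1)
  have hpinj : ∀ i j, i ≤ 15 → j ≤ 15 → q (i + 1) = q (j + 1) → i = j := by
    intro i j hi hj h
    have := hqinj (i + 1) (j + 1) (by omega) (by omega) (by omega) (by omega) h
    omega
  have e1 : x1.val ≠ xk.val := fun h => hne (Fin.ext h)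
  rcases c1 with c | c
  · have c' : xk.val = 1 := by omega
    refine dead_sound 1 (fun j => q (j + 1)) (by show (q 16).val = 1; rw [hq16]; exact c') hpadj hpinj 15 0 1
      (by norm_num) ?_ ?_
    · intro y hy
      refine ⟨0, le_rfl, ?_⟩
      show (q 1).val = y
      rw [hq1, c]
      by_contra hne0
      have : Nat.testBit 1 y = false := by
        rw [show (1 : ℕ) = 2 ^ 0 by norm_num, Nat.testBit_two_pow]
        simpa using hne0
      rw [this] at hy
      cases hy
    · show dead 1 15 (q 1).val 1 = true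
      rw [hq1, c]
      exact dead01
  · have c' : xk.val = 0 := by omega
    refine dead_sound 0 (fun j => q (j + 1)) (by show (q 16).val = 0; rw [hq16]; exact c') hpadj hpinj 15 0 2
      (by norm_num) ?_ ?_
    · intro y hy
      refine ⟨0, le_rfl, ?_⟩
      show (q 1).val = y
      rw [hq1, c]
      by_contra hne0
      have : Nat.testBit 2 y = false := by
        rw [show (2 : ℕ) = 2 ^ 1 by norm_num, Nat.testBit_two_pow]
        simpa using hne0
      rw [this] at hy
      cases hy
    · show dead 0 15 (q 1).val 2 = true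
      rw [hq1, c]
      exact dead10

end Pool.Agent.V11181.FC
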