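import Pool.Agent.V11181.FC.Defs
set_option autoImplicit false

/-! General facts on paths, trees and transition costs. -/

namespace Pool.Agent.V11181.FC
open Finset

variable {V : Type*}

/-- the path through the vertices `f 0, f 1, …` -/
def pathOn {m : ℕ} (f : Fin m → V) : SimpleGraph V where
  Adj x y := x ≠ y ∧ ∃ i j : Fin m, (i.val + 1 = j.val ∨ j.val + 1 = i.val) ∧ x = f i ∧ y = f j
  symm := ⟨by
    rintro x y ⟨hne, i, j, h, hx, hy⟩
    exact ⟨hne.symm, j, i, h.symm, hy, hx⟩⟩
  loopless := ⟨fun x h => h.1 rfl⟩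

theorem pathOn_adj {m : ℕ} {f : Fin m → V} (hf : Function.Injective f) (i j : Fin m) :
    (pathOn f).Adj (f i) (f j) ↔ (i.val + 1 = j.val ∨ j.val + 1 = i.val) := by
  constructor
  · rintro ⟨-, i', j', h, hx, hy⟩
    rw [hf hx, hf hy]; exact h
  · intro h
    refine ⟨?_, i, j, h, rfl, rfl⟩
    intro he
    have := hf he
    subst this
    omega

theorem pathOn_le {m : ℕ} {f : Fin m → V} {G : SimpleGraph V}
    (h : ∀ i j : Fin m, i.val + 1 = j.val → G.Adj (f i) (f j)) : pathOn f ≤ G := by
  rintro x y ⟨-, i, j, hij, rfl, rfl⟩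
  rcases hij with h' | h'
  · exact h i j h'
  · exact (h j i h').symm

/-- the path is isomorphic to the standard path -/
noncomputable def pathIso {m : ℕ} {f : Fin m → V} (hf : Function.Bijective f) :
    SimpleGraph.pathGraph m ≃g pathOn f where
  toEquiv := Equiv.ofBijective f hf
  map_rel_iff' := by
    intro i j
    simp only [Equiv.ofBijective_apply]
    rw [pathOn_adj hf.injective, SimpleGraph.pathGraph_adj]

theorem pathOn_connected {m : ℕ} {f : Fin (m + 1) → V} (hf : Function.Bijective f) :
    (pathOn f).Connected := by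
  rw [← (pathIso hf).connected_iff]
  exact SimpleGraph.pathGraph_connected m

theorem pathOn_neighborSet {m : ℕ} {f : Fin m → V} (hf : Function.Bijective f) (i : Fin m) :
    (pathOn f).neighborSet (f i) = f '' {j | i.val + 1 = j.val ∨ j.val + 1 = i.val} := by
  ext y
  obtain ⟨j, rfl⟩ := hf.surjective y
  rw [SimpleGraph.mem_neighborSet, pathOn_adj hf.injective, hf.injective.mem_set_image]
  rfl

theorem pathOn_dg {m : ℕ} {f : Fin m → V} (hf : Function.Bijective f) (hm : 2 ≤ m) (i : Fin m) :
    dg (pathOn f) (f i) = if i.val = 0 ∨ i.val + 1 = m then 1 else 2 := by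
  unfold dg
  rw [pathOn_neighborSet hf, Set.ncard_image_of_injective _ hf.injective]
  have hi := i.isLt
  split_ifs with h
  · rcases h with h | h
    · have : {j : Fin m | i.val + 1 = j.val ∨ j.val + 1 = i.val} = {⟨1, by omega⟩} := by
        ext j
        simp only [Set.mem_ofPred_eq, Set.mem_singleton_iff, Fin.ext_iff]
        omega
      rw [this, Set.ncard_singleton]
    · have : {j : Fin m | i.val + 1 = j.val ∨ j.val + 1 = i.val} = {⟨i.val - 1, by omega⟩} := by
        ext j
        have := j.isLt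
        simp only [Set.mem_ofPred_eq, Set.mem_singleton_iff, Fin.ext_iff]
        omega
      rw [this, Set.ncard_singleton]
  · push Not at h
    have : {j : Fin m | i.val + 1 = j.val ∨ j.val + 1 = i.val} =
        {⟨i.val - 1, by omega⟩, ⟨i.val + 1, by omega⟩} := by
      ext j
      simp only [Set.mem_ofPred_eq, Set.mem_insert_iff, Set.mem_singleton_iff, Fin.ext_iff]
      omega
    rw [this, Set.ncard_pair]
    simp only [ne_eq, Fin.ext_iff]
    omega

theorem pathOn_leaves {m : ℕ} {f : Fin m → V} (hf : Function.Bijective f) (hm : 2 ≤ m) :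
    leaves (pathOn f) = 2 := by
  unfold leaves
  have : {w | dg (pathOn f) w = 1} = f '' {⟨0, by omega⟩, ⟨m - 1, by omega⟩} := by
    ext y
    obtain ⟨j, rfl⟩ := hf.surjective y
    have hj := j.isLt
    rw [hf.injective.mem_set_image]
    simp only [Set.mem_ofPred_eq, Set.mem_insert_iff, Set.mem_singleton_iff, Fin.ext_iff]
    rw [pathOn_dg hf hm]
    split_ifs with h
    · omega
    · push Not at h; omega
  rw [this, Set.ncard_image_of_injective _ hf.injective, Set.ncard_pair]
  simp only [ne_eq, Fin.ext_iff]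
  omega

theorem dg_eq [Fintype V] (S : SimpleGraph V) [DecidableRel S.Adj] (w : V) :
    dg S w = S.degree w := by
  unfold dg
  rw [Set.ncard_eq_toFinset_card']
  rfl

theorem pathOn_isTree {m : ℕ} [Fintype V] {f : Fin (m + 1) → V} (hf : Function.Bijective f)
    (hm : 1 ≤ m) : (pathOn f).IsTree := by
  classical
  rw [SimpleGraph.isTree_iff_connected_and_card]
  refine ⟨pathOn_connected hf, ?_⟩
  have hc : Fintype.card V = m + 1 := by
    rw [← Fintype.card_of_bijective hf, Fintype.card_fin]
  have hs := (pathOn f).sum_degrees_eq_twice_card_edges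
  have h1 : ∑ v, (pathOn f).degree v = 2 * m := by
    rw [← (Equiv.ofBijective f hf).sum_comp]
    have : ∀ i : Fin (m + 1), (pathOn f).degree ((Equiv.ofBijective f hf) i) =
        if i.val = 0 ∨ i.val + 1 = m + 1 then 1 else 2 := by
      intro i
      rw [← dg_eq]
      exact pathOn_dg hf (by omega) i
    simp only [this]
    obtain ⟨k, rfl⟩ : ∃ k, m = k + 1 := ⟨m - 1, by omega⟩
    rw [Fin.sum_univ_succ, Fin.sum_univ_castSucc]
    have h2 : ∀ i : Fin k, (if ((Fin.castSucc i).succ).val = 0 ∨
        ((Fin.castSucc i).succ).val + 1 = k + 1 + 1 then 1 else 2) = 2 := by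
      intro i
      have := i.isLt
      simp only [Fin.val_succ, Fin.val_castSucc]
      rw [if_neg]
      omega
    simp only [h2]
    simp
    ring
  rw [h1] at hs
  rw [Nat.card_eq_fintype_card, Nat.card_eq_fintype_card, hc]
  have : (pathOn f).edgeFinset.card = m := by omega
  rw [← SimpleGraph.edgeFinset_card, this]

theorem two_le_leaves [Fintype V] {S : SimpleGraph V} (hS : S.IsTree)
    (hV : 2 ≤ Fintype.card V) : 2 ≤ leaves S := by
  classical
  by_contra hlt
  push Not at hlt
  have hcard := hS.card_edgeFinset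
  have hs := S.sum_degrees_eq_twice_card_edges
  have : Nontrivial V := Fintype.one_lt_card_iff_nontrivial.1 (by omega)
  have hpos : ∀ v, 1 ≤ S.degree v := by
    intro v
    exact hS.connected.preconnected.degree_pos_of_nontrivial v
  have hl : leaves S = (univ.filter (fun v => S.degree v = 1)).card := by
    unfold leaves
    rw [← Set.ncard_coe_finset]
    congr 1
    ext v
    simp [dg_eq]
  have h1 : ∀ v, 2 ≤ S.degree v + (if S.degree v = 1 then 1 else 0) := by
    intro v
    have := hpos v
    split_ifs with h <;> omega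
  have h2 : ∑ v : V, 2 ≤ ∑ v, (S.degree v + (if S.degree v = 1 then 1 else 0)) :=
    sum_le_sum (fun v _ => h1 v)
  rw [sum_add_distrib, ← card_filter, ← hl, hs] at h2
  simp only [sum_const, smul_eq_mul, card_univ] at h2
  omega

theorem ml_eq_two [Fintype V] {m : ℕ} {G : SimpleGraph V} (hG : ¬ Hamiltonian G)
    {f : Fin (m + 1) → V} (hf : Function.Bijective f) (hm : 1 ≤ m) (hle : pathOn f ≤ G) :
    ml G = 2 := by
  unfold ml
  rw [if_neg hG]
  have hc : Fintype.card V = m + 1 := by
    rw [← Fintype.card_of_bijective hf, Fintype.card_fin]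
  have hmem : 2 ∈ {k | ∃ S, IsSpanningTree G S ∧ leaves S = k} :=
    ⟨pathOn f, ⟨hle, pathOn_isTree hf hm⟩, pathOn_leaves hf (by omega)⟩
  apply le_antisymm (Nat.sInf_le hmem)
  obtain ⟨S, hS, hk⟩ := Nat.sInf_mem ⟨2, hmem⟩
  rw [← hk]
  exact two_le_leaves hS.2 (by omega)

theorem isMl_pathOn [Fintype V] {m : ℕ} {G : SimpleGraph V} (hG : ¬ Hamiltonian G)
    {f : Fin (m + 1) → V} (hf : Function.Bijective f) (hm : 1 ≤ m) (hle : pathOn f ≤ G) :
    IsMl G (pathOn f) := by
  right
  refine ⟨hG, ⟨hle, pathOn_isTree hf hm⟩, ?_⟩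
  rw [pathOn_leaves hf (by omega), ml_eq_two hG hf hm hle]

/-- deleting a leaf costs at least one -/
theorem one_le_cost [Fintype V] (S : SimpleGraph V) (v : V) (hv : dg S v = 1)
    (S' : SimpleGraph ↥({v}ᶜ : Set V)) : 1 ≤ cost S v S' := by
  classical
  by_contra hlt
  have h0 : cost S v S' = 0 := by omega
  unfold cost at h0
  rw [Set.ncard_eq_zero (Set.toFinite _)] at h0
  have heq : ∀ w : ↥({v}ᶜ : Set V), dg S w.1 = dg S' w := by
    intro w
    by_contra hne
    have : w ∈ {w : ↥({v}ᶜ : Set V) | dg S w.1 ≠ dg S' w} := hne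
    rw [h0] at this
    exact this
  have e1 := S.sum_degrees_eq_twice_card_edges
  have e2 := S'.sum_degrees_eq_twice_card_edges
  have e3 : ∑ w : V, S.degree w = S.degree v + ∑ w : ↥({v}ᶜ : Set V), S.degree w.1 := by
    rw [← Finset.add_sum_erase univ _ (mem_univ v)]
    congr 1
    exact Finset.sum_subtype (univ.erase v) (fun x => by simp) (fun w => S.degree w)
  have e4 : ∑ w : ↥({v}ᶜ : Set V), S.degree w.1 = ∑ w : ↥({v}ᶜ : Set V), S'.degree w := by
    apply sum_congr rfl
    intro w _
    rw [← dg_eq, ← dg_eq]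
    exact heq w
  rw [e3, e4, e2, ← dg_eq S v, hv] at e1
  omega

end Pool.Agent.V11181.FC
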